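import Pool.Agent.Run7.h336.CA13

/-! # Convergence of the generators, with the product over the distinct zeros -/

set_option autoImplicit false
set_option linter.unusedSectionVars false
set_option maxHeartbeats 2000000

open Complex Filter Topology Set MeasureTheory
open scoped ComplexConjugate

namespace Pool.Agent.Y23.G.CA

variable [K : Win] [L : LFun]

/-- **convergence of the generators, with the product over the distinct zeros** -/
theorem main_conv_prod (hsym : Sym (zd (L := L))) (hG : ∀ ρ : Zt, (ρ : ℂ).re = 1 / 2) (hwin : ∀ ρ : Zt, K.k < |(ρ : ℂ).im|)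
    {e : ℝ → ℝ → ℂ} (he : ∀ a : ℝ, 0 < a → ∃ (N : ℕ) (w1 : ℂ), GData a (e a) N w1) :
    ∃ G : ℂ → ℂ, Differentiable ℂ G ∧ G 0 = 1 ∧ (∀ w, G w = 0 ↔ L.X (1 / 2 + w) = 0) ∧
      (∀ w, G w = 0 → deriv G w ≠ 0) ∧ TendstoLocallyUniformly (fun a w => TT (e a) w / TT (e a) 0) G atTop ∧
      (∀ w, ∀ ε > 0, ∃ T0, ∀ T ≥ T0, ∀ Z : Finset ℂ, (∀ z, z ∈ Z ↔ (L.X (1 / 2 + z) = 0 ∧ 0 < z.im) ∧ ‖z‖ ≤ T) →
        ‖G w - ∏ z ∈ Z, (1 - w ^ 2 / z ^ 2)‖ < ε) ∧
      (∀ T : ℝ, {p : ℂ | (L.X (1 / 2 + p) = 0 ∧ 0 < p.im) ∧ ‖p‖ ≤ T}.Finite) ∧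
      ∀ Y : ℂ → ℂ, Differentiable ℂ Y → (∀ w, Y (-w) = Y w) →
        (∃ A : ℝ, ∀ w, ‖Y w‖ ≤ Real.exp (A * (1 + ‖w‖) ^ (3 / 2 : ℝ))) →
        (∀ w, Y w = 0 ↔ L.X (1 / 2 + w) = 0) → (∀ w, Y w = 0 → deriv Y w ≠ 0) →
        ∀ w, Y w / Y 0 = G w := by
  classical
  have hk := K.pos
  have hnear := near_of_rate (L := L) hG hwin
  obtain ⟨a1, ha1, hcen⟩ := center (DZ := zd (L := L)) hG hwin hnear
  obtain ⟨C1, hC1, hcount⟩ := count (DZ := zd (L := L)) hG hwin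
  obtain ⟨C2, hC2, hcard⟩ := Bf_card (DZ := zd (L := L))
  set C : ℝ := max C1 C2 with hC
  have hC0 : 0 < C := lt_max_of_lt_left hC1
  have hZsym : ∀ b : ℂ, L.X (1 / 2 + b) = 0 → L.X (1 / 2 + -b) = 0 := by
    intro b hb
    have h1 := (hsym (1 / 2 + b) hb).1
    have e1 : 1 - (1 / 2 + b) = 1 / 2 + -b := by ring
    rw [e1] at h1
    exact h1
  have hZre : ∀ b : ℂ, L.X (1 / 2 + b) = 0 → b.re = 0 ∧ K.k < |b.im| := by
    intro b hb
    have h1 := hG ⟨1 / 2 + b, hb⟩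
    have h2 := hwin ⟨1 / 2 + b, hb⟩
    constructor
    · simpa using h1
    · simpa using h2
  have hmemB : ∀ (b : ℂ) (R : ℝ), b ∈ Bf (DZ := zd (L := L)) R ↔ L.X (1 / 2 + b) = 0 ∧ ‖b‖ ≤ R := by
    intro b R
    rw [mem_Bf, add_comm]
    exact Iff.rfl
  set P : Set ℂ := {b : ℂ | L.X (1 / 2 + b) = 0 ∧ 0 < b.im} with hP
  have hPiff : ∀ w, L.X (1 / 2 + w) = 0 ↔ (w ∈ P ∨ -w ∈ P) := by
    intro w
    constructor
    · intro hw
      have h1 := (hZre w hw).2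
      rcases lt_or_ge 0 w.im with h2 | h2
      · exact Or.inl ⟨hw, h2⟩
      · refine Or.inr ⟨hZsym w hw, ?_⟩
        rw [Complex.neg_im]
        rcases h2.lt_or_eq with h3 | h3
        · linarith
        · rw [h3, abs_zero] at h1
          linarith
    · rintro (h | h)
      · exact h.1
      · have := hZsym _ h.1
        rwa [neg_neg] at this
  set M : ℝ := 4 * C / K.k ^ 2 + 200 * C with hM
  -- the tails
  have hcount' : ∀ a : ℝ, 0 < a → ∀ r : ℝ, 0 ≤ r → ∀ Z : Finset ℂ, (∀ z ∈ Z, TT (e a) z = 0 ∧ ‖z‖ ≤ r) →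
      (Z.card : ℝ) ≤ C * (1 + r) ^ (7 / 4 : ℝ) := by
    intro a ha r hr Z hZ
    obtain ⟨N, w1, hGD⟩ := he a ha
    exact (hcount a ha (e a) N w1 hGD r hr Z hZ).trans (mul_le_mul_of_nonneg_right (le_max_left _ _) (by positivity))
  have hcardX : ∀ r : ℝ, 0 ≤ r → ∀ Z : Finset ℂ, (∀ z ∈ Z, L.X (1 / 2 + z) = 0 ∧ ‖z‖ ≤ r) →
      (Z.card : ℝ) ≤ C * (1 + r) ^ (7 / 4 : ℝ) := by
    intro r hr Z hZ
    have h1 : Z ⊆ Bf (DZ := zd (L := L)) r := fun z hz => (hmemB z r).2 (hZ z hz)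
    have h2 : (Z.card : ℝ) ≤ ((Bf (DZ := zd (L := L)) r).card : ℝ) := by exact_mod_cast Finset.card_le_card h1
    refine h2.trans ((hcard r hr).trans ?_)
    exact mul_le_mul (le_max_right _ _) (Real.rpow_le_rpow_of_exponent_le (by linarith) (by norm_num)) (by positivity) hC0.le
  have htailX : ∀ T, 0 ≤ T → ∀ S : Finset ℂ, (∀ z ∈ S, L.X (1 / 2 + z) = 0 ∧ T < ‖z‖) →
      ∑ z ∈ S, 1 / ‖z‖ ^ 2 ≤ epsT C M T := by
    intro T _ S hS
    exact tail_all hC0 hk hcardX (fun z hz => (hZre z hz).2.trans_le (Complex.abs_im_le_norm z)) T S hS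
  obtain ⟨G, hGd, hG0, hGz, hGs, hGlim, hGprod⟩ := Pool.Agent.Run7.h336.CAL.limitT (E := fun a w => TT (e a) w) (a1 := a1) (P := P)
    (eps := epsT C M)
    (fun a ha => by
      obtain ⟨N, w1, hGD⟩ := he a (by linarith)
      exact differentiable_TT hGD.mem.1.1)
    (fun a ha => by
      obtain ⟨N, w1, hGD⟩ := he a (by linarith)
      exact (hcen a ha _ N w1 hGD).2 hsym)
    (fun a ha h0 => by
      obtain ⟨N, w1, hGD⟩ := he a (by linarith)
      have := (hcen a ha _ N w1 hGD).1 0 h0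
      rw [norm_zero] at this
      linarith)
    (fun a ha => by
      obtain ⟨N, w1, hGD⟩ := he a (by linarith)
      exact TT_growth (by linarith) hGD.mem.1.1)
    (fun a ha w hw => by
      obtain ⟨N, w1, hGD⟩ := he a (by linarith)
      exact ⟨hGD.line (by linarith) hw, hGD.simple (by linarith) hw⟩)
    (epsT_lim C M)
    (fun a ha T _ S hS => by
      obtain ⟨N, w1, hGD⟩ := he a (by linarith)
      exact tail_all hC0 hk (hcount' a (by linarith)) (hcen a ha _ N w1 hGD).1 T S hS)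
    (fun p hp => ⟨(hZre p hp.1).1, hp.2⟩)
    (fun T => by
      refine (Bs_finite (DZ := zd (L := L)) T).subset fun p hp => ?_
      exact mem_Bf.1 ((hmemB p T).2 ⟨hp.1.1, hp.2⟩))
    (fun T hT => by
      obtain ⟨δ0, hδ0, h⟩ := matched (DZ := zd (L := L)) hG hwin hnear hT
      refine ⟨min δ0 K.k, lt_min hδ0 hk, fun δ hδ hδ' => ?_⟩
      obtain ⟨a0, ha0, h1⟩ := h δ hδ (hδ'.trans (min_le_left _ _))
      refine ⟨a0, fun a ha => ?_⟩
      obtain ⟨N, w1, hGD⟩ := he a (by linarith)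
      obtain ⟨ζ, hz1, hz2, hz3⟩ := h1 a ha (e a) N w1 hGD
      refine ⟨ζ, fun p hp hpT => hz1 p ((hmemB p T).2 ⟨hp.1, hpT⟩),
        fun p hp p' hp' hpT hpT' => hz2 p ((hmemB p T).2 ⟨hp.1, hpT⟩) p' ((hmemB p' T).2 ⟨hp'.1, hpT'⟩),
        fun z hz hzim hzT => ?_⟩
      obtain ⟨b, hb, rfl⟩ := hz3 z hz hzT
      have hb' := (hmemB b T).1 hb
      refine ⟨b, ⟨hb'.1, ?_⟩, hb'.2, rfl⟩
      by_contra hneg
      have h4 := (hZre b hb'.1).2
      rw [abs_of_nonpos (not_lt.1 hneg)] at h4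
      have h5 := (hz1 b hb).2
      have h6 := Complex.abs_im_le_norm (ζ b - b)
      rw [Complex.sub_im] at h6
      have h7 := (abs_le.1 h6).2
      have h8 : δ ≤ K.k := hδ'.trans (min_le_right _ _)
      linarith)
  refine ⟨G, hGd, hG0, fun w => by rw [hGz, hPiff], hGs, hGlim, hGprod, fun T => by
    refine (Bs_finite (DZ := zd (L := L)) T).subset fun p hp => ?_
    exact mem_Bf.1 ((hmemB p T).2 ⟨hp.1.1, hp.2⟩), fun Y hY hYe hYg hYz hYs w => ?_⟩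
  have hY0 : Y 0 ≠ 0 := by
    intro h
    have := (hZre 0 ((hYz 0).1 h)).2
    rw [Complex.zero_im, abs_zero] at this
    linarith
  exact Pool.Agent.Run7.h336.CAL.ident (X := Y) (G := G) (P := P) (eps := epsT C M) hY hYe hY0 hYg
    (fun w hw => ⟨(hZre w ((hYz w).1 hw)).1, hYs w hw⟩) (epsT_lim C M)
    (fun T hT S hS => htailX T hT S fun z hz => ⟨(hYz z).1 (hS z hz).1, (hS z hz).2⟩)
    (fun p hp => ⟨(hZre p hp.1).1, hp.2⟩)
    (fun T => by
      refine (Bs_finite (DZ := zd (L := L)) T).subset fun p hp => ?_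
      exact mem_Bf.1 ((hmemB p T).2 ⟨hp.1.1, hp.2⟩))
    (fun w => by rw [hYz, hPiff]) hGprod w

end Pool.Agent.Y23.G.CA
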