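import Pool.Agent.H24R2.JP.Had

/-! # Entire functions of order below one with negative zeros: comparison with finite products over zeros -/

set_option autoImplicit false

open Complex Filter Topology Polynomial
open scoped ComplexConjugate

namespace Pool.Agent.Run7.h833.SF

/-- entire functions of order below one, real on the real axis, with negative zeros -/
structure Cl (f : ℂ → ℂ) : Prop where
  diff : Differentiable ℂ f
  nz : f 0 ≠ 0
  symm : ∀ x, f (conj x) = conj (f x)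
  grow : ∃ K : ℝ, ∀ x, ‖f x‖ ≤ Real.exp (K * (1 + ‖x‖) ^ (3 / 4 : ℝ))
  zeros : ∀ x, f x = 0 → x.im = 0 ∧ x.re < 0

/-- the quotient of the values at `x` and at `0` is a real number at least one -/
lemma poly_quot (P : ℂ[X]) (h0 : P.eval 0 ≠ 0) (hP : ∀ z, P.eval z = 0 → z.im = 0 ∧ z.re < 0) {x : ℝ} (hx : 0 ≤ x) :
    ∃ c : ℝ, 1 ≤ c ∧ P.eval (x : ℂ) / P.eval 0 = c := by
  have hP0 : P ≠ 0 := by
    rintro rfl
    simp at h0
  have hs : P.Splits := IsAlgClosed.splits P
  have key : ∀ S : Multiset ℂ, (∀ r ∈ S, r.im = 0 ∧ r.re < 0) →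
      ∃ c : ℝ, 1 ≤ c ∧ (S.map fun a => (x : ℂ) - a).prod = c * (S.map fun a => 0 - a).prod := by
    intro S
    induction S using Multiset.induction_on with
    | empty => exact fun _ => ⟨1, le_rfl, by simp⟩
    | cons r S ih =>
      intro h
      obtain ⟨c, hc, h1⟩ := ih fun r' hr' => h r' (Multiset.mem_cons_of_mem hr')
      obtain ⟨h2, h3⟩ := h r (Multiset.mem_cons_self r S)
      have e1 : r = (r.re : ℂ) := by apply Complex.ext <;> simp [h2]
      refine ⟨(1 - x / r.re) * c, ?_, ?_⟩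
      · have h4 : x / r.re ≤ 0 := div_nonpos_of_nonneg_of_nonpos hx h3.le
        nlinarith
      · simp only [Multiset.map_cons, Multiset.prod_cons]
        have h5 : r ≠ 0 := by
          intro h
          rw [h, Complex.zero_re] at h3
          exact lt_irrefl _ h3
        rw [h1]
        push_cast
        rw [← e1]
        field_simp
        ring
  obtain ⟨c, hc, h1⟩ := key P.roots fun r hr => hP r ((Polynomial.mem_roots hP0).1 hr)
  refine ⟨c, hc, ?_⟩
  rw [div_eq_iff h0, hs.eval_eq_prod_roots, hs.eval_eq_prod_roots, h1]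
  ring

theorem Cl.quot {f : ℂ → ℂ} (hf : Cl f) {x : ℝ} (hx : 0 ≤ x) : ∃ c : ℝ, 1 ≤ c ∧ f x / f 0 = c := by
  obtain ⟨K, hK⟩ := hf.grow
  obtain ⟨P, hP, hl⟩ := H24R2.JP.had f K hf.diff hf.nz hf.symm hK
  have t : ∀ z, Tendsto (fun N => aeval z (P N)) atTop (𝓝 (f z)) := fun z =>
    (tendstoLocallyUniformlyOn_univ.2 hl).tendsto_at (Set.mem_univ z)
  have e : ∀ (N : ℕ) (z : ℂ), aeval z (P N) = ((P N).map (algebraMap ℝ ℂ)).eval z := fun N z => by
    rw [eval_map_algebraMap]
  have t2 : Tendsto (fun N => aeval (x : ℂ) (P N) / aeval (0 : ℂ) (P N)) atTop (𝓝 (f x / f 0)) :=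
    (t x).div (t 0) hf.nz
  have h1 : ∀ᶠ N in atTop, aeval (x : ℂ) (P N) / aeval (0 : ℂ) (P N) ∈ {z : ℂ | z.im = 0 ∧ 1 ≤ z.re} := by
    filter_upwards [(t 0).eventually_ne hf.nz] with N hN
    obtain ⟨c, hc, h2⟩ := poly_quot ((P N).map (algebraMap ℝ ℂ)) (by rw [← e]; exact hN)
      (fun z hz => hf.zeros z (hP N z (by rw [e]; exact hz))) hx
    rw [e, e, h2]
    exact ⟨by simp, by simpa using hc⟩
  have hcl : IsClosed {z : ℂ | z.im = 0 ∧ 1 ≤ z.re} :=
    (isClosed_eq Complex.continuous_im continuous_const).inter (isClosed_le continuous_const Complex.continuous_re)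
  obtain ⟨h3, h4⟩ := hcl.mem_of_tendsto t2 h1
  exact ⟨(f x / f 0).re, h4, by apply Complex.ext <;> simp [h3]⟩

theorem Cl.div {f : ℂ → ℂ} (hf : Cl f) {r : ℂ} (hr : f r = 0) :
    ∃ g : ℂ → ℂ, Cl g ∧ g 0 = f 0 ∧ ∀ x, f x = (1 - x / r) * g x := by
  obtain ⟨K, hK⟩ := hf.grow
  have hr0 : r ≠ 0 := by
    rintro rfl
    exact hf.nz hr
  obtain ⟨him, hre⟩ := hf.zeros r hr
  have hrn : 0 < ‖r‖ := norm_pos_iff.2 hr0
  set B : ℝ := (1 + 2 * ‖r‖) ^ (3 / 4 : ℝ) with hB
  have hB1 : 1 ≤ B := Real.one_le_rpow (by linarith) (by norm_num)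
  have hfb : ∀ w ∈ Metric.closedBall (0 : ℂ) (2 * ‖r‖), ‖f w‖ ≤ Real.exp (|K| * B) := by
    intro w hw
    rw [mem_closedBall_zero_iff] at hw
    refine (hK w).trans (Real.exp_le_exp.2 ?_)
    refine mul_le_mul (le_abs_self K) ?_ (by positivity) (abs_nonneg K)
    exact Real.rpow_le_rpow (by positivity) (by linarith) (by norm_num)
  obtain ⟨G, hG, hG0, hGb, hFG, _⟩ := Helper242.KK.lnz_split hf.diff hrn hf.nz hfb (u := r)
    (by rw [mem_closedBall_zero_iff]) hr
  refine ⟨G, ⟨hG, by rw [hG0]; exact hf.nz, ?_, ⟨|K| * B, fun x => ?_⟩, fun x hx => hf.zeros x (by rw [hFG, hx, mul_zero])⟩,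
    hG0, hFG⟩
  · refine H24R2.JP.had_symm hG.continuous hFG hf.symm (fun x => ?_) ?_
    · have e1 : conj r = r := Complex.conj_eq_iff_im.2 him
      rw [map_sub, map_one, map_div₀, e1]
    · have e1 : {w : ℂ | (1 - w / r) ≠ 0} = {r}ᶜ := by
        ext w
        simp only [Set.mem_ofPred_eq, Set.mem_compl_iff, Set.mem_singleton_iff, ne_eq, sub_eq_zero]
        rw [not_iff_not, eq_comm, div_eq_one_iff_eq hr0]
      rw [e1]
      exact dense_compl_singleton r
  · have h1 : 1 ≤ (1 + ‖x‖) ^ (3 / 4 : ℝ) := Real.one_le_rpow (by linarith [norm_nonneg x]) (by norm_num)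
    rcases le_or_gt ‖x‖ (2 * ‖r‖) with h | h
    · refine (hGb x (by rw [mem_closedBall_zero_iff]; exact h)).trans (Real.exp_le_exp.2 ?_)
      have : 0 ≤ |K| * B := by positivity
      nlinarith
    · have h2 : 1 ≤ ‖1 - x / r‖ := by
        have h3 : ‖x / r‖ - ‖(1 : ℂ)‖ ≤ ‖1 - x / r‖ := by
          rw [norm_sub_rev]
          exact norm_sub_norm_le _ _
        have h4 : 2 ≤ ‖x / r‖ := by
          rw [norm_div, le_div_iff₀ hrn]
          exact h.le
        rw [norm_one] at h3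
        linarith
      have h5 : ‖G x‖ ≤ ‖f x‖ := by
        rw [hFG x, norm_mul]
        have := norm_nonneg (G x)
        nlinarith
      refine h5.trans ((hK x).trans (Real.exp_le_exp.2 ?_))
      have h6 : K ≤ |K| * B := by
        have := le_abs_self K
        have := abs_nonneg K
        nlinarith
      exact mul_le_mul_of_nonneg_right h6 (by linarith)

lemma order_lin {r : ℂ} (hr : r ≠ 0) (z : ℂ) : analyticOrderAt (fun x : ℂ => 1 - x / r) z = if z = r then 1 else 0 := by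
  have ha : AnalyticAt ℂ (fun x : ℂ => 1 - x / r) z := by fun_prop
  split_ifs with h
  · subst h
    have h2 : HasDerivAt (fun x : ℂ => 1 - x / z) (0 - 1 / z) z :=
      (hasDerivAt_const z (1 : ℂ)).sub ((hasDerivAt_id z).div_const z)
    have h1 := ha.analyticOrderAt_sub_eq_one_of_deriv_ne_zero (by
      rw [h2.deriv, zero_sub]
      exact neg_ne_zero.2 (one_div_ne_zero hr))
    have e1 : (fun x : ℂ => 1 - x / z - (1 - z / z)) = fun x : ℂ => 1 - x / z := by
      funext x
      rw [div_self hr, sub_self, sub_zero]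
    rwa [e1] at h1
  · rw [ha.analyticOrderAt_eq_zero]
    intro h0
    rw [sub_eq_zero, eq_comm, div_eq_one_iff_eq hr] at h0
    exact h h0

theorem Cl.lower_multi (S : Multiset ℂ) : ∀ {f : ℂ → ℂ}, Cl f → (∀ r ∈ S, (S.count r : ℕ∞) ≤ analyticOrderAt f r) →
    ∀ {x : ℝ}, 0 ≤ x → ‖f 0‖ * (S.map fun r : ℂ => ‖1 - (x : ℂ) / r‖).prod ≤ ‖f x‖ := by
  classical
  induction S using Multiset.induction_on with
  | empty =>
    intro f hf _ x hx
    obtain ⟨c, hc, h1⟩ := hf.quot hx
    rw [Multiset.map_zero, Multiset.prod_zero, mul_one]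
    rw [div_eq_iff hf.nz] at h1
    rw [h1, norm_mul, Complex.norm_real, Real.norm_eq_abs, abs_of_nonneg (by linarith)]
    have := norm_nonneg (f 0)
    nlinarith
  | cons r S ih =>
    intro f hf hS x hx
    have h1 := hS r (Multiset.mem_cons_self r S)
    rw [Multiset.count_cons_self] at h1
    have hfa : AnalyticAt ℂ f r := hf.diff.analyticAt r
    have hr : f r = 0 := by
      by_contra h0
      rw [hfa.analyticOrderAt_eq_zero.2 h0] at h1
      simp at h1
    have hr0 : r ≠ 0 := by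
      rintro rfl
      exact hf.nz hr
    obtain ⟨g, hg, hg0, hfg⟩ := hf.div hr
    have hord : ∀ z, analyticOrderAt f z = (if z = r then 1 else 0) + analyticOrderAt g z := by
      intro z
      have h2 : AnalyticAt ℂ (fun x : ℂ => 1 - x / r) z := by fun_prop
      have h3 := analyticOrderAt_mul h2 (hg.diff.analyticAt z)
      rw [order_lin hr0] at h3
      rw [← h3]
      congr 1
      funext x
      exact hfg x
    have h4 := ih hg (fun r' hr' => by
      have h5 := hS r' (Multiset.mem_cons_of_mem hr')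
      rw [hord] at h5
      by_cases he : r' = r
      · rw [he, if_pos rfl, Multiset.count_cons_self] at h5
        rw [he]
        push_cast at h5
        rw [add_comm] at h5
        exact (ENat.add_le_add_iff_left ENat.one_ne_top).1 h5
      · rw [if_neg he, zero_add, Multiset.count_cons_of_ne he] at h5
        exact h5) hx
    rw [Multiset.map_cons, Multiset.prod_cons, hfg x, norm_mul]
    rw [hg0] at h4
    have := norm_nonneg (1 - (x : ℂ) / r)
    calc ‖f 0‖ * (‖1 - (x : ℂ) / r‖ * (S.map fun r : ℂ => ‖1 - (x : ℂ) / r‖).prod)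
        = ‖1 - (x : ℂ) / r‖ * (‖f 0‖ * (S.map fun r : ℂ => ‖1 - (x : ℂ) / r‖).prod) := by ring
      _ ≤ _ := mul_le_mul_of_nonneg_left h4 this

theorem Cl.lower {f : ℂ → ℂ} (hf : Cl f) (Z : Finset ℂ) (m : ℂ → ℕ) (hm : ∀ r ∈ Z, (m r : ℕ∞) ≤ analyticOrderAt f r)
    {x : ℝ} (hx : 0 ≤ x) : ‖f 0‖ * ∏ r ∈ Z, ‖1 - (x : ℂ) / r‖ ^ m r ≤ ‖f x‖ := by
  classical
  set S : Multiset ℂ := ∑ r ∈ Z, Multiset.replicate (m r) r with hS
  have hc : ∀ r, S.count r = if r ∈ Z then m r else 0 := by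
    intro r
    rw [hS, Multiset.count_sum']
    simp only [Multiset.count_replicate]
    rw [Finset.sum_ite_eq' Z r m]
  have h1 := Cl.lower_multi S hf (fun r hr => by
    rw [hc]
    split_ifs with h
    · exact hm r h
    · simp) hx
  refine le_trans (le_of_eq ?_) h1
  congr 1
  rw [hS, ← Multiset.coe_mapAddMonoidHom, map_sum, Multiset.prod_sum]
  refine Finset.prod_congr rfl fun r _ => ?_
  rw [Multiset.coe_mapAddMonoidHom, Multiset.map_replicate, Multiset.prod_replicate]

/-! ## Even functions -/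

/-- `X w = f (w ^ 2)`: the lower bound by finite products over zeros on the upper imaginary axis -/
theorem even_lower {f X : ℂ → ℂ} (hf : Cl f) (hX : ∀ w, X w = f (w ^ 2)) (Z : Finset ℂ) (hZ : ∀ z ∈ Z, z.re = 0 ∧ 0 < z.im)
    (m : ℂ → ℕ) (hm : ∀ z ∈ Z, (m z : ℕ∞) ≤ analyticOrderAt X z) (w : ℝ) :
    ‖X 0‖ * ∏ z ∈ Z, ‖1 - (w : ℂ) ^ 2 / z ^ 2‖ ^ m z ≤ ‖X w‖ := by
  classical
  have hinj : ∀ z ∈ Z, ∀ z' ∈ Z, z ^ 2 = z' ^ 2 → z = z' := by
    intro z hz z' hz' h
    rcases sq_eq_sq_iff_eq_or_eq_neg.1 h with h1 | h1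
    · exact h1
    · exfalso
      have h2 := (hZ z hz).2
      have h3 := (hZ z' hz').2
      rw [h1, Complex.neg_im] at h2
      linarith
  -- the multiplicity carried to the square
  have hord : ∀ z ∈ Z, analyticOrderAt X z = analyticOrderAt f (z ^ 2) := by
    intro z hz
    have hz0 : z ≠ 0 := by
      intro h
      have := (hZ z hz).2
      rw [h, Complex.zero_im] at this
      exact lt_irrefl _ this
    have h1 : HasDerivAt (fun x : ℂ => x ^ 2) (2 * z) z := by
      have := hasDerivAt_pow 2 z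
      simpa using this
    have h2 := analyticOrderAt_comp_of_deriv_ne_zero (f := f) (g := fun x : ℂ => x ^ 2) (z₀ := z) (by fun_prop)
      (by rw [h1.deriv]; exact mul_ne_zero two_ne_zero hz0)
    have e1 : X = f ∘ fun x : ℂ => x ^ 2 := funext hX
    rw [e1]
    exact h2
  set m' : ℂ → ℕ := fun r => if h : ∃ z ∈ Z, z ^ 2 = r then m h.choose else 0 with hm'
  have hm'z : ∀ z ∈ Z, m' (z ^ 2) = m z := by
    intro z hz
    have h : ∃ z' ∈ Z, z' ^ 2 = z ^ 2 := ⟨z, hz, rfl⟩
    simp only [hm', dif_pos h]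
    congr 1
    exact hinj _ h.choose_spec.1 _ hz h.choose_spec.2
  have h1 := hf.lower (Z.image fun z => z ^ 2) m' (fun r hr => by
    rw [Finset.mem_image] at hr
    obtain ⟨z, hz, rfl⟩ := hr
    rw [hm'z z hz, ← hord z hz]
    exact hm z hz) (x := w ^ 2) (sq_nonneg w)
  rw [Finset.prod_image (fun z hz z' hz' h => hinj z hz z' hz' h)] at h1
  have e0 : X 0 = f 0 := by rw [hX]; norm_num
  have e1 : X w = f ((w ^ 2 : ℝ) : ℂ) := by rw [hX]; push_cast; rfl
  rw [e0, e1]
  refine le_trans (le_of_eq ?_) h1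
  congr 1
  refine Finset.prod_congr rfl fun z hz => ?_
  rw [hm'z z hz]
  push_cast
  rfl

end Pool.Agent.Run7.h833.SF
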