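import Pool.Agent.Run7.h833.SF.B

/-! # Comparison of the product over the distinct zeros with the function itself -/

set_option autoImplicit false

open Complex Filter Topology
open scoped ComplexConjugate

namespace Pool.Agent.Run7.h833.SF

lemma term_eq (w : ℝ) {z : ℂ} (hz : z.re = 0) : 1 - (w : ℂ) ^ 2 / z ^ 2 = ((1 + w ^ 2 / z.im ^ 2 : ℝ) : ℂ) := by
  have e1 : z = z.im * I := by apply Complex.ext <;> simp [hz]
  have e2 : z ^ 2 = -((z.im : ℂ) ^ 2) := by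
    rw [e1, mul_pow, I_sq]
    simp
  rw [e2, div_neg, sub_neg_eq_add]
  push_cast
  rfl

theorem compare {X G f : ℂ → ℂ} (hf : Cl f) (hX : ∀ w, X w = f (w ^ 2)) (hXd : Differentiable ℂ X)
    (hre : ∀ z, X z = 0 → z.re = 0) (hfin : ∀ T : ℝ, {p : ℂ | (X p = 0 ∧ 0 < p.im) ∧ ‖p‖ ≤ T}.Finite)
    (hG : ∀ w, ∀ ε > 0, ∃ T0, ∀ T ≥ T0, ∀ Z : Finset ℂ, (∀ z, z ∈ Z ↔ (X z = 0 ∧ 0 < z.im) ∧ ‖z‖ ≤ T) →
      ‖G w - ∏ z ∈ Z, (1 - w ^ 2 / z ^ 2)‖ < ε) (w : ℝ) :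
    ∃ g c : ℝ, G w = g ∧ 1 ≤ g ∧ X w / X 0 = c ∧ g ≤ c ∧
      ∀ F : Finset ℂ, (∀ z ∈ F, X z = 0 ∧ 0 < z.im) → ∏ z ∈ F, (1 + w ^ 2 / z.im ^ 2) ≤ g ∧
        ∀ m : ℂ → ℕ, (∀ z ∈ F, 1 ≤ m z ∧ (m z : ℕ∞) ≤ analyticOrderAt X z) →
          g * ∏ z ∈ F, (1 + w ^ 2 / z.im ^ 2) ^ (m z - 1) ≤ c := by
  classical
  have hX0 : X 0 = f 0 := by rw [hX]; norm_num
  have hXn : X 0 ≠ 0 := by rw [hX0]; exact hf.nz
  have hXp : 0 < ‖X 0‖ := norm_pos_iff.2 hXn
  obtain ⟨c, hc1, hc⟩ := hf.quot (sq_nonneg w)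
  have hXc : X w / X 0 = c := by
    rw [hX0, hX]
    push_cast at hc
    exact hc
  have hXwn : ‖X w‖ = c * ‖X 0‖ := by
    rw [div_eq_iff hXn] at hXc
    rw [hXc, norm_mul, Complex.norm_real, Real.norm_eq_abs, abs_of_nonneg (by linarith)]
  set Z : ℝ → Finset ℂ := fun T => (hfin T).toFinset with hZ
  have hmem : ∀ T z, z ∈ Z T ↔ (X z = 0 ∧ 0 < z.im) ∧ ‖z‖ ≤ T := fun T z => by
    simp only [hZ, Set.Finite.mem_toFinset, Set.mem_ofPred_eq]
  have hone : ∀ z : ℂ, 1 ≤ 1 + w ^ 2 / z.im ^ 2 := fun z => by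
    have : 0 ≤ w ^ 2 / z.im ^ 2 := by positivity
    linarith
  set pr : ℝ → ℝ := fun T => ∏ z ∈ Z T, (1 + w ^ 2 / z.im ^ 2) with hpr
  have hprc : ∀ T, ((pr T : ℝ) : ℂ) = ∏ z ∈ Z T, (1 - (w : ℂ) ^ 2 / z ^ 2) := by
    intro T
    rw [hpr, Complex.ofReal_prod]
    refine Finset.prod_congr rfl fun z hz => ?_
    rw [term_eq w (hre z ((hmem T z).1 hz).1.1)]
  have hlim : Tendsto (fun T => ((pr T : ℝ) : ℂ)) atTop (𝓝 (G w)) := by
    rw [Metric.tendsto_atTop]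
    intro ε hε
    obtain ⟨T0, hT0⟩ := hG w ε hε
    refine ⟨T0, fun T hT => ?_⟩
    rw [dist_eq_norm, norm_sub_rev, hprc]
    exact hT0 T hT (Z T) (hmem T)
  have hlimr : Tendsto pr atTop (𝓝 (G w).re) := by
    have := (Complex.continuous_re.tendsto _).comp hlim
    refine this.congr fun T => ?_
    simp
  have hGr : G w = ((G w).re : ℂ) := by
    have h1 := (Complex.continuous_ofReal.tendsto _).comp hlimr
    exact tendsto_nhds_unique hlim h1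
  have hlarge : ∀ F : Finset ℂ, (∀ z ∈ F, X z = 0 ∧ 0 < z.im) → ∀ᶠ T in atTop, F ⊆ Z T := by
    intro F hF
    filter_upwards [eventually_ge_atTop (∑ z ∈ F, ‖z‖)] with T hT z hz
    refine (hmem T z).2 ⟨hF z hz, ?_⟩
    exact (Finset.single_le_sum (f := fun z : ℂ => ‖z‖) (fun z _ => norm_nonneg z) hz).trans hT
  have hlow : ∀ F : Finset ℂ, (∀ z ∈ F, X z = 0 ∧ 0 < z.im) → ∏ z ∈ F, (1 + w ^ 2 / z.im ^ 2) ≤ (G w).re := by
    intro F hF
    refine ge_of_tendsto hlimr ?_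
    filter_upwards [hlarge F hF] with T hT
    have h1 := Finset.prod_sdiff (f := fun z : ℂ => 1 + w ^ 2 / z.im ^ 2) hT
    have h2 : 1 ≤ ∏ z ∈ Z T \ F, (1 + w ^ 2 / z.im ^ 2) :=
      Finset.prod_induction _ (fun x => 1 ≤ x) (fun a b ha hb => one_le_mul_of_one_le_of_one_le ha hb) le_rfl
        (fun z _ => hone z)
    have h3 : 0 ≤ ∏ z ∈ F, (1 + w ^ 2 / z.im ^ 2) := Finset.prod_nonneg fun z _ => by linarith [hone z]
    simp only [hpr]
    rw [← h1]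
    nlinarith
  have hup : ∀ F : Finset ℂ, (∀ z ∈ F, X z = 0 ∧ 0 < z.im) →
        ∀ m : ℂ → ℕ, (∀ z ∈ F, 1 ≤ m z ∧ (m z : ℕ∞) ≤ analyticOrderAt X z) →
          (G w).re * ∏ z ∈ F, (1 + w ^ 2 / z.im ^ 2) ^ (m z - 1) ≤ c := by
    intro F hF m hm
    refine le_of_tendsto (hlimr.mul_const _) ?_
    filter_upwards [hlarge F hF] with T hT
    have h1 := even_lower hf hX (Z T) (fun z hz => ⟨hre z ((hmem T z).1 hz).1.1, ((hmem T z).1 hz).1.2⟩)
      (fun z => if z ∈ F then m z else 1) (fun z hz => by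
        split_ifs with h
        · exact (hm z h).2
        · have h2 : analyticOrderAt X z ≠ 0 :=
            (hXd.analyticAt z).analyticOrderAt_ne_zero.2 ((hmem T z).1 hz).1.1
          have h3 := ENat.one_le_iff_ne_zero.2 h2
          simpa using h3) w
    have h2 : ∏ z ∈ Z T, ‖1 - (w : ℂ) ^ 2 / z ^ 2‖ ^ (if z ∈ F then m z else 1) =
        pr T * ∏ z ∈ F, (1 + w ^ 2 / z.im ^ 2) ^ (m z - 1) := by
      have e1 : ∏ z ∈ F, (1 + w ^ 2 / z.im ^ 2) ^ (m z - 1) =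
          ∏ z ∈ Z T, (if z ∈ F then (1 + w ^ 2 / z.im ^ 2) ^ (m z - 1) else 1) := by
        rw [Finset.prod_ite_mem, Finset.inter_eq_right.2 hT]
      rw [e1, hpr, ← Finset.prod_mul_distrib]
      refine Finset.prod_congr rfl fun z hz => ?_
      rw [term_eq w (hre z ((hmem T z).1 hz).1.1), Complex.norm_real, Real.norm_eq_abs,
        abs_of_nonneg (by linarith [hone z])]
      split_ifs with h
      · rw [← pow_succ']
        congr 1
        have := (hm z h).1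
        omega
      · rw [pow_one, mul_one]
    rw [h2, hXwn, mul_comm c] at h1
    exact le_of_mul_le_mul_left h1 hXp
  refine ⟨(G w).re, c, hGr, ?_, hXc, ?_, fun F hF => ⟨hlow F hF, hup F hF⟩⟩
  · have := hlow ∅ (fun z hz => absurd hz (Finset.notMem_empty z))
    simpa using this
  · have := hup ∅ (fun z hz => absurd hz (Finset.notMem_empty z)) (fun _ => 1) (fun z hz => absurd hz (Finset.notMem_empty z))
    simpa using this

end Pool.Agent.Run7.h833.SF
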