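import Pool.Agent.Run7.h833.SF.A
import Pool.Agent.Run7.h833.SF.C
import Pool.Agent.Run7.h336.CA15

/-! # The limit of the ground states at one real point -/

set_option autoImplicit false
set_option linter.unusedSectionVars false
set_option maxHeartbeats 2000000

open Complex Filter Topology Set MeasureTheory
open scoped ComplexConjugate

namespace Pool.Agent.Y23.G.CA

variable [K : Win] [L : LFun]

variable {e : ℝ → ℝ → ℂ} {N : ℝ → ℕ} {w1 : ℝ → ℂ}

theorem one_point (hsym : Sym (zd (L := L))) (hg : Gen e N w1) (hno : NoZ K L) (hfe : ∀ s, L.X (1 - s) = L.X s)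
    (hgr : ∃ A : ℝ, ∀ w, ‖L.X (1 / 2 + w)‖ ≤ Real.exp (A * (1 + ‖w‖) ^ (3 / 2 : ℝ)))
    (hexp : ¬ ∃ C A : ℝ, ∀ w : ℂ, ‖L.X (1 / 2 + w)‖ ≤ C * Real.exp (A * ‖w‖))
    {f : ℂ → ℂ} (hfd : Differentiable ℂ f) (hfs : ∀ x, f (conj x) = conj (f x))
    (hfg : ∃ K : ℝ, ∀ x, ‖f x‖ ≤ Real.exp (K * (1 + ‖x‖) ^ (3 / 4 : ℝ))) (hfX : ∀ w, L.X (1 / 2 + w) = f (w ^ 2))
    (hG : ∀ ρ : Zt, (ρ : ℂ).re = 1 / 2) :
    ∃ g c : ℝ → ℝ, ∀ x : ℝ, Tendsto (fun a => EE e a x / EE e a (1 / 2)) atTop (𝓝 (g x : ℂ)) ∧
      L.X x / L.X (1 / 2) = (c x : ℂ) ∧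
      (x ≠ 1 / 2 → 1 < g x ∧ (g x = c x ↔ ∀ s, L.X s = 0 → deriv L.X s ≠ 0)) ∧
      ∀ F : Finset ℝ, (∀ t ∈ F, 0 < t ∧ L.X (1 / 2 + t * I) = 0) →
        ∏ t ∈ F, (1 + (x - 1 / 2) ^ 2 / t ^ 2) ≤ g x ∧
        ∀ m : ℝ → ℕ, (∀ t ∈ F, (m t : ℕ∞) ≤ analyticOrderAt L.X (1 / 2 + t * I)) →
          g x * ∏ t ∈ F, (1 + (x - 1 / 2) ^ 2 / t ^ 2) ^ (m t - 1) ≤ c x := by
  classical
  have hX0 : L.X (1 / 2) ≠ 0 := by
    have := hno 0 (by rw [abs_zero]; exact K.pos.le)
    simpa using this
  obtain ⟨G, hGd, hG0, hGz, hGs, hGlim, hGprod, hfin, hGY⟩ := main_conv_prod (L := L) hsym hG (hno.win hG)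
    (e := e) (fun a ha => ⟨N a, w1 a, hg.gd a ha⟩)
  set X : ℂ → ℂ := fun w => L.X (1 / 2 + w) with hXdef
  have hXd : Differentiable ℂ X := Xd.comp (by fun_prop)
  have hre : ∀ z, X z = 0 → z.re = 0 := by
    intro z hz
    have h1 := hG ⟨1 / 2 + z, hz⟩
    simpa using h1
  have hXn : X 0 ≠ 0 := by
    simp only [hXdef, add_zero]
    exact hX0
  have hev : ∀ w, X (-w) = X w := by
    intro w
    have := hfe (1 / 2 + w)
    simp only [hXdef]
    rw [← this]
    congr 1
    ring
  have hcl : Run7.h833.SF.Cl f := by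
    refine ⟨hfd, ?_, hfs, hfg, fun x hx => ?_⟩
    · have := hfX 0
      rw [add_zero, zero_pow two_ne_zero] at this
      rw [← this]
      exact hX0
    · obtain ⟨w, hw'⟩ := IsAlgClosed.exists_pow_nat_eq x (n := 2) (by norm_num)
      have hw : x = w ^ 2 := hw'.symm
      have h1 : X w = 0 := by
        simp only [hXdef]
        rw [hfX, ← hw, hx]
      have h2 := hre w h1
      have h3 : w ≠ 0 := by
        rintro rfl
        exact hXn h1
      have h4 : w = w.im * I := by apply Complex.ext <;> simp [h2]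
      have h5 : w.im ≠ 0 := by
        intro h
        rw [h, Complex.ofReal_zero, zero_mul] at h4
        exact h3 h4
      have h6 : x = ((-(w.im ^ 2) : ℝ) : ℂ) := by
        rw [hw, h4, mul_pow, I_sq]
        push_cast
        simp
      rw [h6]
      refine ⟨Complex.ofReal_im _, ?_⟩
      rw [Complex.ofReal_re]
      have := pow_pos (abs_pos.2 h5) 2
      rw [sq_abs] at this
      linarith
  have hcmp := Run7.h833.SF.compare (X := X) (G := G) hcl hfX hXd hre hfin hGprod
  choose g c h1 h2 h3 h4 h5 using hcmp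
  -- pointwise limits
  have hpt : ∀ x : ℝ, Tendsto (fun a => EE e a x / EE e a (1 / 2)) atTop (𝓝 ((g (x - 1 / 2) : ℝ) : ℂ)) := by
    intro x
    have h6 := (tendstoLocallyUniformlyOn_univ.2 hGlim).tendsto_at (mem_univ (((x - 1 / 2 : ℝ)) : ℂ))
    rw [h1] at h6
    refine h6.congr fun a => ?_
    unfold EE
    rw [sub_self]
    congr 2
    push_cast
    rfl
  have hquot : ∀ x : ℝ, L.X x / L.X (1 / 2) = ((c (x - 1 / 2) : ℝ) : ℂ) := by
    intro x
    rw [← h3 (x - 1 / 2)]
    simp only [hXdef, add_zero]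
    congr 2
    push_cast
    ring
  -- there is a zero
  obtain ⟨z0, hz0, hz0i⟩ : ∃ z, X z = 0 ∧ 0 < z.im := by
    by_contra hno'
    push Not at hno'
    have hnz : ∀ z, X z ≠ 0 := by
      intro z hz
      have h6 := hno' z hz
      have h7 := hno' (-z) (by rw [hev]; exact hz)
      rw [Complex.neg_im] at h7
      have h8 : z.im = 0 := by linarith
      have h9 : z = 0 := by apply Complex.ext <;> simp [hre z hz, h8]
      rw [h9] at hz
      exact hXn hz
    have h6 := hGY X hXd hev hgr (fun w => Iff.rfl) (fun w hw => absurd hw (hnz w))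
    have h7 : ∀ w, G w = 1 := by
      intro w
      by_contra hne
      obtain ⟨T0, hT0⟩ := hGprod w ‖G w - 1‖ (norm_pos_iff.2 (sub_ne_zero.2 hne))
      have h8 := hT0 T0 le_rfl ∅ (fun z => by
        constructor
        · exact fun hz => absurd hz (Finset.notMem_empty z)
        · exact fun hz => absurd hz.1.1 (hnz z))
      rw [Finset.prod_empty] at h8
      exact lt_irrefl _ h8
    refine hexp ⟨‖X 0‖, 0, fun w => ?_⟩
    have h8 := h6 w
    rw [h7, div_eq_one_iff_eq hXn] at h8
    rw [zero_mul, Real.exp_zero, mul_one]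
    exact (congrArg norm h8).le
  refine ⟨fun x => g (x - 1 / 2), fun x => c (x - 1 / 2), fun x => ⟨hpt x, hquot x, fun hx => ?_, fun F hF => ?_⟩⟩
  · have hw0 : x - 1 / 2 ≠ 0 := sub_ne_zero.2 hx
    refine ⟨?_, ?_, ?_⟩
    · have h6 := (h5 (x - 1 / 2) {z0} (fun z hz => by
        rw [Finset.mem_singleton] at hz
        rw [hz]
        exact ⟨hz0, hz0i⟩)).1
      rw [Finset.prod_singleton] at h6
      have h7 : 0 < (x - 1 / 2) ^ 2 / z0.im ^ 2 := by positivity
      linarith
    · intro hgc s hs hs'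
      -- choose the zero with positive imaginary part
      have hsX : X (s - 1 / 2) = 0 := by
        simp only [hXdef]
        rw [add_sub_cancel]
        exact hs
      have hder : ∀ w, deriv X w = deriv L.X (1 / 2 + w) := fun w =>
        deriv_comp_const_add (f := L.X) (1 / 2) w
      have hsX' : deriv X (s - 1 / 2) = 0 := by
        rw [hder, add_sub_cancel]
        exact hs'
      have hord : ∀ z, X z = 0 → deriv X z = 0 → ((2 : ℕ) : ℕ∞) ≤ analyticOrderAt X z := by
        intro z hz hz'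
        rw [natCast_le_analyticOrderAt_iff_iteratedDeriv_eq_zero (hXd.analyticAt z)]
        intro i hi
        interval_cases i
        · simpa using hz
        · simpa using hz'
      have hdneg : ∀ z, deriv X z = 0 → deriv X (-z) = 0 := by
        intro z hz
        have h6 : deriv (fun w => X (-w)) z = -deriv X (-z) := deriv_comp_neg (f := X) z
        have h7 : (fun w => X (-w)) = X := funext hev
        rw [h7, hz] at h6
        linear_combination h6
      obtain ⟨z, hz, hzi, hzm⟩ : ∃ z, X z = 0 ∧ 0 < z.im ∧ ((2 : ℕ) : ℕ∞) ≤ analyticOrderAt X z := by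
        rcases lt_trichotomy 0 (s - 1 / 2).im with h6 | h6 | h6
        · exact ⟨s - 1 / 2, hsX, h6, hord _ hsX hsX'⟩
        · exfalso
          have h7 : s - 1 / 2 = 0 := Complex.ext (by rw [hre _ hsX]; simp) (by rw [← h6]; simp)
          rw [h7] at hsX
          exact hXn hsX
        · refine ⟨-(s - 1 / 2), by rw [hev]; exact hsX, by rw [Complex.neg_im]; linarith,
            hord _ (by rw [hev]; exact hsX) (hdneg _ hsX')⟩
      have h6 := (h5 (x - 1 / 2) {z} (fun z' hz' => by
        rw [Finset.mem_singleton] at hz'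
        rw [hz']
        exact ⟨hz, hzi⟩)).2 (fun _ => 2) (fun z' hz' => by
        rw [Finset.mem_singleton] at hz'
        rw [hz']
        exact ⟨by norm_num, hzm⟩)
      rw [Finset.prod_singleton] at h6
      have h7 : 0 < (x - 1 / 2) ^ 2 / z.im ^ 2 := by positivity
      have h8 := h2 (x - 1 / 2)
      simp only at hgc
      rw [← hgc] at h6
      norm_num at h6
      nlinarith
    · intro hs
      have h6 := (equiv_simple hsym hg hno hfe hgr).1 ⟨hG, hs⟩
      have h7 := (tendstoLocallyUniformlyOn_univ.2 h6).tendsto_at (mem_univ (x : ℂ))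
      have h8 := tendsto_nhds_unique (hpt x) h7
      rw [hquot x] at h8
      exact_mod_cast h8
  · set F' : Finset ℂ := F.image fun t : ℝ => (t : ℂ) * I with hF'
    have hinj : ∀ t ∈ F, ∀ t' ∈ F, (t : ℂ) * I = (t' : ℂ) * I → t = t' := by
      intro t _ t' _ h
      have := congrArg Complex.im h
      simpa using this
    have hmem : ∀ z ∈ F', X z = 0 ∧ 0 < z.im := by
      intro z hz
      rw [hF', Finset.mem_image] at hz
      obtain ⟨t, ht, rfl⟩ := hz
      refine ⟨(hF t ht).2, ?_⟩
      simpa using (hF t ht).1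
    obtain ⟨h6, h7⟩ := h5 (x - 1 / 2) F' hmem
    constructor
    · rw [hF', Finset.prod_image (fun t ht t' ht' h => hinj t ht t' ht' h)] at h6
      simpa using h6
    · intro m hm
      have hordX : ∀ z, analyticOrderAt X z = analyticOrderAt L.X (1 / 2 + z) := by
        intro z
        have h8 : HasDerivAt (fun x : ℂ => 1 / 2 + x) 1 z := by
          simpa using (hasDerivAt_id z).const_add (1 / 2 : ℂ)
        exact analyticOrderAt_comp_of_deriv_ne_zero (f := L.X) (g := fun x : ℂ => 1 / 2 + x) (z₀ := z) (by fun_prop)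
          (by rw [h8.deriv]; exact one_ne_zero)
      have h9 := h7 (fun z => max 1 (m z.im)) (fun z hz => by
        refine ⟨le_max_left _ _, ?_⟩
        have hz1 := hmem z hz
        have hz2 : 1 ≤ analyticOrderAt X z := by
          have h8 : analyticOrderAt X z ≠ 0 := (hXd.analyticAt z).analyticOrderAt_ne_zero.2 hz1.1
          exact Order.one_le_iff_ne_zero.2 h8
        rw [hF', Finset.mem_image] at hz
        obtain ⟨t, ht, rfl⟩ := hz
        have hm1 := hm t ht
        rw [← hordX] at hm1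
        have e1 : ((t : ℂ) * I).im = t := by simp
        rw [e1]
        rcases le_total 1 (m t) with h | h
        · rw [max_eq_right h]; exact hm1
        · rw [max_eq_left h]; exact_mod_cast hz2)
      rw [hF', Finset.prod_image (fun t ht t' ht' h => hinj t ht t' ht' h)] at h9
      simp only [Complex.mul_im, Complex.ofReal_re, Complex.I_im, mul_one, Complex.ofReal_im, Complex.I_re,
        mul_zero, add_zero] at h9
      refine le_trans (le_of_eq ?_) h9
      congr 1
      refine Finset.prod_congr rfl fun t _ => ?_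
      congr 1
      omega

end Pool.Agent.Y23.G.CA
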