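import Pool.Agent.Run7.h833.SF.B

/-! # Entire functions of order below one with negative zeros: the upper bound by finite products over zeros -/

set_option autoImplicit false

open Complex Filter Topology Polynomial Metric
open scoped ComplexConjugate

namespace Pool.Agent.Run7.h833.SF

lemma order_eval {Q : ℂ[X]} (hQ : Q ≠ 0) (r : ℂ) : (Q.rootMultiplicity r : ℕ∞) ≤ analyticOrderAt (fun z => Q.eval z) r := by
  have ha : AnalyticAt ℂ (fun z => Q.eval z) r := by
    have := Q.differentiable.analyticAt r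
    exact this
  obtain ⟨R, hR, _⟩ := Polynomial.exists_eq_pow_rootMultiplicity_mul_and_not_dvd Q hQ r
  rw [natCast_le_analyticOrderAt ha]
  refine ⟨fun z => R.eval z, R.differentiable.analyticAt r, Eventually.of_forall fun z => ?_⟩
  conv_lhs => rw [hR]
  simp [eval_mul, eval_pow, eval_sub]

lemma eval_prod {Q : ℂ[X]} (h0 : Q.eval 0 ≠ 0) (w : ℂ) :
    ‖Q.eval w‖ = ‖Q.eval 0‖ * ∏ r ∈ Q.roots.toFinset, ‖1 - w / r‖ ^ Q.rootMultiplicity r := by
  classical
  have hQ : Q ≠ 0 := by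
    rintro rfl
    simp at h0
  have hs : Q.Splits := IsAlgClosed.splits Q
  have key : ∀ S : Multiset ℂ, (∀ r ∈ S, r ≠ 0) →
      (S.map fun a => w - a).prod = (S.map fun a => 0 - a).prod * (S.map fun a => 1 - w / a).prod := by
    intro S
    induction S using Multiset.induction_on with
    | empty => intro _; simp
    | cons r S ih =>
      intro h
      have h1 := ih fun r' hr' => h r' (Multiset.mem_cons_of_mem hr')
      have h2 := h r (Multiset.mem_cons_self r S)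
      simp only [Multiset.map_cons, Multiset.prod_cons]
      rw [h1]
      have : w - r = (0 - r) * (1 - w / r) := by field_simp; ring
      rw [this]
      ring
  have h1 := key Q.roots fun r hr h => by
    rw [h] at hr
    exact h0 ((Polynomial.mem_roots hQ).1 hr)
  have e1 : Q.eval w = Q.eval 0 * (Q.roots.map fun a => 1 - w / a).prod := by
    rw [hs.eval_eq_prod_roots, hs.eval_eq_prod_roots, h1]
    ring
  rw [e1, norm_mul]
  congr 1
  rw [Finset.prod_multiset_map_count, norm_prod]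
  refine Finset.prod_congr rfl fun r _ => ?_
  rw [norm_pow, Polynomial.count_roots]

/-- the upper bound of an entire function of order below one by finite products over its zeros -/
theorem Cl.upper {f : ℂ → ℂ} (hf : Cl f) (w : ℂ) {ε : ℝ} (hε : 0 < ε) : ∃ (Z : Finset ℂ) (m : ℂ → ℕ),
    (∀ r ∈ Z, f r = 0 ∧ (m r : ℕ∞) ≤ analyticOrderAt f r) ∧
    ‖f w‖ ≤ (1 + ε) * (‖f 0‖ * ∏ r ∈ Z, ‖1 - w / r‖ ^ m r) := by
  obtain ⟨K, hK⟩ := hf.grow
  set K' : ℝ := max K 0 with hK'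
  have hK0 : 0 ≤ K' := le_max_right _ _
  have hbr : ∀ r : ℝ, ∀ w : ℂ, ‖w‖ ≤ r → ‖f w‖ ≤ Real.exp (K' * (1 + r) ^ (3/4 : ℝ)) := by
    intro r w hw
    refine (hK w).trans (Real.exp_le_exp.2 ?_)
    calc K * (1 + ‖w‖) ^ (3/4 : ℝ) ≤ K' * (1 + ‖w‖) ^ (3/4 : ℝ) :=
          mul_le_mul_of_nonneg_right (le_max_left _ _)
            (Real.rpow_nonneg (by linarith [norm_nonneg w]) _)
      _ ≤ K' * (1 + r) ^ (3/4 : ℝ) :=
          mul_le_mul_of_nonneg_left (Real.rpow_le_rpow (by linarith [norm_nonneg w])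
            (by linarith) (by norm_num)) hK0
  set c : ℝ := |Real.log ‖f 0‖| with hc
  have hlog : 0 < Real.log (1 + ε) := Real.log_pos (by linarith)
  have hr : 0 < ‖w‖ + 1 := by positivity
  obtain ⟨N, hN1, hN2⟩ := (H24R2.JP.had_lim hK0 hr (abs_nonneg (Real.log ‖f 0‖)) hlog).exists
  have hρ : 0 < (N : ℝ) + 1 := by positivity
  obtain ⟨n, hn⟩ := exists_nat_ge (∑ᶠ u, (MeromorphicOn.divisor f (closedBall 0 ((N : ℝ) + 1)) u : ℝ) * 1)
  obtain ⟨P, G, hG, hG0, hGb, hFG, hnz⟩ := H24R2.JP.had_split (M := K' * (1 + 2 * ((N : ℝ) + 1)) ^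
    (3/4 : ℝ)) hρ n f hf.diff hf.nz hf.symm (fun w hw => hbr _ w (by simpa using hw)) hn
  obtain ⟨L, hA, hL⟩ := H24R2.JP.had_base hG hρ (fun u hu => hnz u (ball_subset_closedBall hu))
    (fun w hw => hGb w (ball_subset_closedBall (ball_subset_ball (by linarith) hw)))
  obtain ⟨h1, h2⟩ := hL w (by linarith)
  have h3 : ‖L w‖ < Real.log (1 + ε) := by
    refine lt_of_le_of_lt (h2.trans ?_) hN2
    have h5 : ‖w‖ / (((N : ℝ) + 1) - ‖w‖) ≤ (‖w‖ + 1) / (((N : ℝ) + 1) - (‖w‖ + 1)) := by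
      apply div_le_div₀ hr.le (by linarith) (by linarith) (by linarith)
    refine mul_le_mul ?_ h5 (div_nonneg (norm_nonneg _) (by linarith)) (by positivity)
    rw [hG0]
    have := neg_abs_le (Real.log ‖f 0‖)
    linarith
  set Q : ℂ[X] := P.map (algebraMap ℝ ℂ) with hQ
  have hPQ : ∀ z : ℂ, aeval z P = Q.eval z := fun z => by rw [hQ, eval_map_algebraMap]
  have hQ0 : Q.eval 0 ≠ 0 := by
    intro h
    have := hFG 0
    rw [hPQ, h, zero_mul] at this
    exact hf.nz this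
  have hQ0' : Q.eval 0 = 1 := by
    have h4 := hFG 0
    rw [hPQ, hG0] at h4
    have h5 : (Q.eval 0 - 1) * f 0 = 0 := by linear_combination -h4
    rcases mul_eq_zero.1 h5 with h | h
    · linear_combination h
    · exact absurd h hf.nz
  have hQn : Q ≠ 0 := by
    intro h
    rw [h] at hQ0
    simp at hQ0
  refine ⟨Q.roots.toFinset, Q.rootMultiplicity, fun r hr => ⟨?_, ?_⟩, ?_⟩
  · rw [Multiset.mem_toFinset, Polynomial.mem_roots hQn] at hr
    rw [hFG r, hPQ, hr.eq_zero, zero_mul]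
  · have h4 : f = fun z => Q.eval z * G z := funext fun z => by rw [hFG z, hPQ]
    have h5 : AnalyticAt ℂ (fun z => Q.eval z) r := Q.differentiable.analyticAt r
    have h6 := analyticOrderAt_mul h5 (hG.analyticAt r)
    have h7 : analyticOrderAt f r = analyticOrderAt (fun z => Q.eval z) r + analyticOrderAt G r := by
      rw [← h6, h4]
      rfl
    rw [h7]
    exact (order_eval hQn r).trans le_self_add
  · rw [hFG w, hPQ, norm_mul, h1, norm_mul, hG0, eval_prod hQ0 w, hQ0', norm_one, one_mul, Complex.norm_exp]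
    have h8 : Real.exp (L w).re ≤ 1 + ε := by
      rw [← Real.exp_log (by linarith : 0 < 1 + ε)]
      exact Real.exp_le_exp.2 ((Complex.re_le_norm _).trans h3.le)
    have h9 : 0 ≤ ∏ r ∈ Q.roots.toFinset, ‖1 - w / r‖ ^ Q.rootMultiplicity r :=
      Finset.prod_nonneg fun r _ => by positivity
    calc (∏ r ∈ Q.roots.toFinset, ‖1 - w / r‖ ^ Q.rootMultiplicity r) * (‖f 0‖ * Real.exp (L w).re)
        ≤ (∏ r ∈ Q.roots.toFinset, ‖1 - w / r‖ ^ Q.rootMultiplicity r) * (‖f 0‖ * (1 + ε)) := by gcongr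
      _ = _ := by ring

/-- `X w = f (w ^ 2)`: the upper bound on the real line by finite products over the zeros `i t`, `t > 0` -/
theorem even_upper {f X : ℂ → ℂ} (hf : Cl f) (hX : ∀ w, X w = f (w ^ 2)) (hXn : ∀ t : ℝ, 0 < t → analyticOrderAt X (t * I) ≠ ⊤)
    (w : ℝ) {ε : ℝ} (hε : 0 < ε) :
    ∃ F : Finset ℝ, (∀ t ∈ F, 0 < t ∧ X (t * I) = 0) ∧
      ‖X w‖ ≤ (1 + ε) * (‖X 0‖ * ∏ t ∈ F, (1 + w ^ 2 / t ^ 2) ^ analyticOrderNatAt X (t * I)) := by
  classical
  obtain ⟨Z, m, hZ, hle⟩ := hf.upper ((w ^ 2 : ℝ) : ℂ) hε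
  have hz : ∀ r ∈ Z, r.im = 0 ∧ r.re < 0 := fun r hr => hf.zeros r (hZ r hr).1
  set τ : ℂ → ℝ := fun r => Real.sqrt (-r.re) with hτ
  have hτ0 : ∀ r ∈ Z, 0 < τ r := fun r hr => Real.sqrt_pos.2 (by linarith [(hz r hr).2])
  have hτ2 : ∀ r ∈ Z, ((τ r : ℂ) * I) ^ 2 = r := by
    intro r hr
    have h1 : (τ r) ^ 2 = -r.re := Real.sq_sqrt (by linarith [(hz r hr).2])
    have h2 : r = (r.re : ℂ) := by apply Complex.ext <;> simp [(hz r hr).1]
    rw [mul_pow, Complex.I_sq, ← Complex.ofReal_pow, h1]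
    conv_rhs => rw [h2]
    push_cast
    ring
  have hinj : ∀ r ∈ Z, ∀ r' ∈ Z, τ r = τ r' → r = r' := by
    intro r hr r' hr' h
    rw [← hτ2 r hr, ← hτ2 r' hr', h]
  have hord : ∀ t : ℝ, 0 < t → analyticOrderAt X (t * I) = analyticOrderAt f ((t * I) ^ 2) := by
    intro t ht
    have hz0 : (t : ℂ) * I ≠ 0 := mul_ne_zero (by exact_mod_cast ht.ne') Complex.I_ne_zero
    have h1 : HasDerivAt (fun x : ℂ => x ^ 2) (2 * (t * I)) (t * I) := by
      have := hasDerivAt_pow 2 ((t : ℂ) * I)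
      simpa using this
    have h2 := analyticOrderAt_comp_of_deriv_ne_zero (f := f) (g := fun x : ℂ => x ^ 2) (z₀ := t * I) (by fun_prop)
      (by rw [h1.deriv]; exact mul_ne_zero two_ne_zero hz0)
    have e1 : X = f ∘ fun x : ℂ => x ^ 2 := funext hX
    rw [e1]
    exact h2
  refine ⟨Z.image τ, fun t ht => ?_, ?_⟩
  · obtain ⟨r, hr, rfl⟩ := Finset.mem_image.1 ht
    exact ⟨hτ0 r hr, by rw [hX, hτ2 r hr]; exact (hZ r hr).1⟩
  · have e0 : X 0 = f 0 := by rw [hX]; norm_num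
    have e1 : X w = f ((w ^ 2 : ℝ) : ℂ) := by rw [hX]; push_cast; rfl
    rw [e0, e1]
    refine hle.trans ?_
    have h1ε : 0 ≤ 1 + ε := by linarith
    refine mul_le_mul_of_nonneg_left (mul_le_mul_of_nonneg_left ?_ (norm_nonneg _)) h1ε
    rw [Finset.prod_image (fun r hr r' hr' h => hinj r hr r' hr' h)]
    refine Finset.prod_le_prod (fun r _ => by positivity) fun r hr => ?_
    have h3 : ‖1 - ((w ^ 2 : ℝ) : ℂ) / r‖ = 1 + w ^ 2 / τ r ^ 2 := by
      have h4 : r = -((τ r ^ 2 : ℝ) : ℂ) := by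
        conv_lhs => rw [← hτ2 r hr]
        rw [mul_pow, Complex.I_sq]
        push_cast
        ring
      have h5 : (1 : ℂ) - ((w ^ 2 : ℝ) : ℂ) / r = ((1 + w ^ 2 / τ r ^ 2 : ℝ) : ℂ) := by
        conv_lhs => rw [h4]
        push_cast
        rw [div_neg, sub_neg_eq_add]
      rw [h5, Complex.norm_real, Real.norm_eq_abs, abs_of_nonneg (by positivity)]
    rw [h3]
    refine pow_le_pow_right₀ (le_add_of_nonneg_right (by positivity)) ?_
    have h6 := (hZ r hr).2
    have h7 := hord (τ r) (hτ0 r hr)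
    rw [hτ2 r hr] at h7
    rw [← h7, ← Nat.cast_analyticOrderNatAt (hXn _ (hτ0 r hr))] at h6
    exact_mod_cast h6

end Pool.Agent.Run7.h833.SF
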